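import Mathlib
import Pool.Agent.H1.CM.Targets3

/-!
# Module GB (MP_bceb84_ag): the basis `1, N, w, Nw` of the homogeneous coordinate ring
-/

open MvPolynomial Pool.Agent.H1.CM

namespace Pool.Agent.H50.CM

section Quadratic

open Polynomial

variable {S : Type} [CommRing S]

/-- A monic quadratic polynomial. -/
noncomputable def quadP (a c : S) : Polynomial S :=
  Polynomial.X ^ 2 + Polynomial.C a * Polynomial.X + Polynomial.C c

lemma quadP_root (a c : S) :
    (AdjoinRoot.root (quadP a c)) ^ 2 + AdjoinRoot.of (quadP a c) a * AdjoinRoot.root (quadP a c)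
      + AdjoinRoot.of (quadP a c) c = 0 := by
  have h := AdjoinRoot.mk_self (f := quadP a c)
  have e : AdjoinRoot.mk (quadP a c) (quadP a c) = (AdjoinRoot.root (quadP a c)) ^ 2
      + AdjoinRoot.of (quadP a c) a * AdjoinRoot.root (quadP a c)
      + AdjoinRoot.of (quadP a c) c := by
    conv_lhs => arg 2; rw [quadP]
    simp only [map_add, map_mul, map_pow, AdjoinRoot.mk_X, AdjoinRoot.mk_C]
  rw [← e, h]

lemma quadP_zero (a c α β : S)
    (h : AdjoinRoot.of (quadP a c) α + AdjoinRoot.of (quadP a c) β * AdjoinRoot.root (quadP a c)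
      = 0) : α = 0 ∧ β = 0 := by
  have h1 : AdjoinRoot.mk (quadP a c) (Polynomial.C β * Polynomial.X + Polynomial.C α) = 0 := by
    rw [map_add, map_mul, AdjoinRoot.mk_X, AdjoinRoot.mk_C, AdjoinRoot.mk_C, add_comm]
    exact h
  rw [AdjoinRoot.mk_eq_zero] at h1
  have h2 : Polynomial.C β * Polynomial.X + Polynomial.C α = 0 := by
    by_contra hne
    have hnt : Nontrivial S := by
      by_contra hs
      rw [not_nontrivial_iff_subsingleton] at hs
      exact hne (Subsingleton.elim _ _)
    have hd : (quadP a c).natDegree = 2 := by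
      unfold quadP
      compute_degree!
    have hm : (quadP a c).Monic := by
      unfold quadP
      monicity!
    refine hm.not_dvd_of_natDegree_lt hne ?_ h1
    rw [hd]
    have : (Polynomial.C β * Polynomial.X + Polynomial.C α).natDegree ≤ 1 := by
      compute_degree
    omega
  constructor
  · have := congrArg (fun p => Polynomial.coeff p 0) h2
    simpa using this
  · have := congrArg (fun p => Polynomial.coeff p 1) h2
    simpa using this

end Quadratic

section Main

variable {P : Type} [CommRing P]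

/-- The combination of `1, N, w, Nw` with coefficients `p`. -/
noncomputable def lin (D : Data P) (p : Fin 4 → MvPolynomial (Fin 3) P) : SD D :=
  ∑ t : Fin 4, Ideal.Quotient.mk (ID D) (emb (p t)) * eg D t

lemma lin_eq (D : Data P) (p : Fin 4 → MvPolynomial (Fin 3) P) :
    lin D p = Ideal.Quotient.mk (ID D) (emb (p 0) + emb (p 1) * X 3 + emb (p 2) * X 4
      + emb (p 3) * (X 3 * X 4)) := by
  unfold lin
  rw [Fin.sum_univ_four]
  simp only [eg, map_add, map_mul, Matrix.cons_val_zero, Matrix.cons_val_one, Matrix.cons_val,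
    mul_one]

lemma mk_F1 (D : Data P) : Ideal.Quotient.mk (ID D) (F1 D) = 0 := by
  rw [Ideal.Quotient.eq_zero_iff_mem]
  exact Ideal.subset_span (by simp)

lemma mk_F2 (D : Data P) : Ideal.Quotient.mk (ID D) (F2 D) = 0 := by
  rw [Ideal.Quotient.eq_zero_iff_mem]
  exact Ideal.subset_span (by simp)

/-- Multiplication by a form in `x, y, z`. -/
noncomputable def mulS (s : MvPolynomial (Fin 3) P) (p : Fin 4 → MvPolynomial (Fin 3) P) :
    Fin 4 → MvPolynomial (Fin 3) P := fun t => s * p t

/-- Multiplication by `N`. -/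
noncomputable def mulN (D : Data P) (p : Fin 4 → MvPolynomial (Fin 3) P) :
    Fin 4 → MvPolynomial (Fin 3) P :=
  ![-(D.c * p 1), p 0 - D.a * p 1, -(D.c * p 3), p 2 - D.a * p 3]

/-- Multiplication by `w`. -/
noncomputable def mulW (D : Data P) (p : Fin 4 → MvPolynomial (Fin 3) P) :
    Fin 4 → MvPolynomial (Fin 3) P :=
  ![-(D.e0 * p 2) + D.c * (D.e1 * p 3), -(D.e1 * p 2) - D.e0 * p 3 + D.a * (D.e1 * p 3),
    p 0 - D.b0 * p 2 + D.c * (D.b1 * p 3), p 1 - D.b1 * p 2 - D.b0 * p 3 + D.a * (D.b1 * p 3)]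

lemma lin_add (D : Data P) (p p' : Fin 4 → MvPolynomial (Fin 3) P) :
    lin D (p + p') = lin D p + lin D p' := by
  unfold lin
  rw [← Finset.sum_add_distrib]
  refine Finset.sum_congr rfl fun t _ => ?_
  rw [Pi.add_apply, map_add, map_add, add_mul]

lemma lin_mulS (D : Data P) (s : MvPolynomial (Fin 3) P) (p : Fin 4 → MvPolynomial (Fin 3) P) :
    lin D (mulS s p) = lin D p * Ideal.Quotient.mk (ID D) (emb s) := by
  unfold lin mulS
  rw [Finset.sum_mul]
  refine Finset.sum_congr rfl fun t _ => ?_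
  rw [map_mul, map_mul]
  ring

lemma lin_mulN (D : Data P) (p : Fin 4 → MvPolynomial (Fin 3) P) :
    lin D (mulN D p) = lin D p * Ideal.Quotient.mk (ID D) (X 3) := by
  rw [lin_eq, lin_eq, ← map_mul, ← sub_eq_zero, ← map_sub]
  have h := mk_F1 D
  have e : emb (mulN D p 0) + emb (mulN D p 1) * X 3 + emb (mulN D p 2) * X 4
      + emb (mulN D p 3) * (X 3 * X 4) - (emb (p 0) + emb (p 1) * X 3 + emb (p 2) * X 4
      + emb (p 3) * (X 3 * X 4)) * X 3 = F1 D * (-emb (p 1) - emb (p 3) * X 4) := by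
    simp only [mulN, F1, Matrix.cons_val_zero, Matrix.cons_val_one, Matrix.cons_val, map_neg,
      map_sub, map_mul]
    ring
  rw [e, map_mul, h, zero_mul]

lemma lin_mulW (D : Data P) (p : Fin 4 → MvPolynomial (Fin 3) P) :
    lin D (mulW D p) = lin D p * Ideal.Quotient.mk (ID D) (X 4) := by
  rw [lin_eq, lin_eq, ← map_mul, ← sub_eq_zero, ← map_sub]
  have h1 := mk_F1 D
  have h2 := mk_F2 D
  have e : emb (mulW D p 0) + emb (mulW D p 1) * X 3 + emb (mulW D p 2) * X 4
      + emb (mulW D p 3) * (X 3 * X 4) - (emb (p 0) + emb (p 1) * X 3 + emb (p 2) * X 4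
      + emb (p 3) * (X 3 * X 4)) * X 4 = F2 D * (-emb (p 2) - emb (p 3) * X 3)
      + F1 D * (emb (p 3) * (emb D.b1 * X 4 + emb D.e1)) := by
    simp only [mulW, F1, F2, Matrix.cons_val_zero, Matrix.cons_val_one, Matrix.cons_val, map_neg,
      map_sub, map_mul, map_add]
    ring
  rw [e, map_add, map_mul, map_mul, h1, h2, zero_mul, zero_mul, add_zero]

lemma exists_lin (D : Data P) (f : SD D) : ∃ p, f = lin D p := by
  obtain ⟨g, rfl⟩ := Ideal.Quotient.mk_surjective f
  induction g using MvPolynomial.induction_on with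
  | C a =>
    refine ⟨![C a, 0, 0, 0], ?_⟩
    rw [lin_eq]
    congr 1
    simp [emb]
  | add g h hg hh =>
    obtain ⟨p, hp⟩ := hg
    obtain ⟨p', hp'⟩ := hh
    exact ⟨p + p', by rw [map_add, hp, hp', lin_add]⟩
  | mul_X g n hg =>
    obtain ⟨p, hp⟩ := hg
    have hx : ∀ r : Fin 3, Ideal.Quotient.mk (ID D) g
        * Ideal.Quotient.mk (ID D) (X (Fin.castLE (by norm_num) r)) = lin D (mulS (X r) p) := by
      intro r
      rw [lin_mulS, hp]
      congr 2
      simp [emb]
    rw [map_mul]
    fin_cases n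
    · exact ⟨_, hx 0⟩
    · exact ⟨_, hx 1⟩
    · exact ⟨_, hx 2⟩
    · exact ⟨mulN D p, by rw [lin_mulN, hp]; rfl⟩
    · exact ⟨mulW D p, by rw [lin_mulW, hp]; rfl⟩

/-! ### Uniqueness -/

/-- The first extension. -/
abbrev R1 (D : Data P) : Type := AdjoinRoot (quadP D.a D.c)

/-- The map to the first extension. -/
noncomputable abbrev o1 (D : Data P) : MvPolynomial (Fin 3) P →+* R1 D :=
  AdjoinRoot.of (quadP D.a D.c)

/-- The second polynomial. -/
noncomputable abbrev q2 (D : Data P) : Polynomial (R1 D) :=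
  quadP (o1 D D.b0 + o1 D D.b1 * AdjoinRoot.root (quadP D.a D.c))
    (o1 D D.e0 + o1 D D.e1 * AdjoinRoot.root (quadP D.a D.c))

/-- The second extension. -/
abbrev R2 (D : Data P) : Type := AdjoinRoot (q2 D)

/-- The map to the second extension. -/
noncomputable abbrev o2 (D : Data P) : R1 D →+* R2 D := AdjoinRoot.of (q2 D)

/-- The values of the variables. -/
noncomputable def vals (D : Data P) : Fin 5 → R2 D :=
  ![o2 D (o1 D (X 0)), o2 D (o1 D (X 1)), o2 D (o1 D (X 2)),
    o2 D (AdjoinRoot.root (quadP D.a D.c)), AdjoinRoot.root (q2 D)]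

/-- The map on polynomials. -/
noncomputable def psi0 (D : Data P) : MvPolynomial (Fin 5) P →+* R2 D :=
  MvPolynomial.eval₂Hom ((o2 D).comp ((o1 D).comp MvPolynomial.C)) (vals D)

lemma psi0_emb (D : Data P) (p : MvPolynomial (Fin 3) P) : psi0 D (emb p) = o2 D (o1 D p) := by
  have h : (psi0 D).comp (emb (P := P)).toRingHom = (o2 D).comp (o1 D) := by
    apply MvPolynomial.ringHom_ext
    · intro r
      simp [psi0, emb]
    · intro i
      fin_cases i <;> simp [psi0, emb, vals]
  exact congrArg (fun φ : MvPolynomial (Fin 3) P →+* R2 D => φ p) h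

lemma psi0_N (D : Data P) : psi0 D (X 3) = o2 D (AdjoinRoot.root (quadP D.a D.c)) := by
  simp [psi0, vals]

lemma psi0_w (D : Data P) : psi0 D (X 4) = AdjoinRoot.root (q2 D) := by
  simp [psi0, vals]

lemma psi0_F1 (D : Data P) : psi0 D (F1 D) = 0 := by
  unfold F1
  rw [map_add, map_add, map_pow, map_mul, psi0_emb, psi0_emb, psi0_N, ← map_pow, ← map_mul,
    ← map_add, ← map_add, quadP_root, map_zero]

lemma psi0_F2 (D : Data P) : psi0 D (F2 D) = 0 := by
  unfold F2
  rw [map_add, map_add, map_pow, map_mul, map_add, map_add, map_mul, map_mul, psi0_emb, psi0_emb,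
    psi0_emb, psi0_emb, psi0_N, psi0_w, ← map_mul, ← map_mul, ← map_add, ← map_add]
  exact quadP_root _ _

/-- The map on the quotient. -/
noncomputable def psi (D : Data P) : SD D →+* R2 D :=
  Ideal.Quotient.lift (ID D) (psi0 D) (by
    intro a ha
    have h : ID D ≤ RingHom.ker (psi0 D) := by
      unfold ID
      rw [Ideal.span_le]
      rintro x (rfl | rfl)
      · exact psi0_F1 D
      · exact psi0_F2 D
    exact h ha)

lemma psi_mk (D : Data P) (f : MvPolynomial (Fin 5) P) :
    psi D (Ideal.Quotient.mk (ID D) f) = psi0 D f := rfl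

lemma lin_zero (D : Data P) (p : Fin 4 → MvPolynomial (Fin 3) P) (h : lin D p = 0) : p = 0 := by
  have h1 : psi D (lin D p) = 0 := by rw [h, map_zero]
  rw [lin_eq, psi_mk] at h1
  simp only [map_add, map_mul, psi0_emb, psi0_N, psi0_w] at h1
  have h2 : o2 D (o1 D (p 0) + o1 D (p 1) * AdjoinRoot.root (quadP D.a D.c))
      + o2 D (o1 D (p 2) + o1 D (p 3) * AdjoinRoot.root (quadP D.a D.c))
        * AdjoinRoot.root (q2 D) = 0 := by
    rw [map_add, map_add, map_mul, map_mul, ← h1]
    ring
  obtain ⟨h3, h4⟩ := quadP_zero _ _ _ _ h2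
  obtain ⟨h5, h6⟩ := quadP_zero _ _ _ _ h3
  obtain ⟨h7, h8⟩ := quadP_zero _ _ _ _ h4
  funext t
  fin_cases t
  · exact h5
  · exact h6
  · exact h7
  · exact h8

lemma lin_sub (D : Data P) (p p' : Fin 4 → MvPolynomial (Fin 3) P) :
    lin D (p - p') = lin D p - lin D p' := by
  have := lin_add D (p - p') p'
  rw [sub_add_cancel] at this
  rw [this, add_sub_cancel_right]

end Main

theorem gb : T_GB := by
  intro P _ D f
  obtain ⟨p, hp⟩ := exists_lin D f
  refine ⟨p, hp, ?_⟩
  intro p' hp'
  have : lin D (p' - p) = 0 := by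
    rw [lin_sub, ← hp]
    change f = lin D p' at hp'
    rw [← hp', sub_self]
  have h := lin_zero D _ this
  exact sub_eq_zero.mp h

end Pool.Agent.H50.CM
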