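import Mathlib
import Pool.Agent.H50.CM.GB

/-!
# Module GH (MP_bceb84_ag): the graded pieces of the homogeneous coordinate ring
-/

open MvPolynomial Pool.Agent.H1.CM

namespace Pool.Agent.H50.CM

section Main

variable {P : Type} [CommRing P]

/-- Homogeneous of degree `d`, or zero. -/
def Hm (d : ℤ) (q : MvPolynomial (Fin 3) P) : Prop :=
  q = 0 ∨ ∃ m : ℕ, (m : ℤ) = d ∧ q.IsHomogeneous m

lemma Hm.add {d : ℤ} {q q' : MvPolynomial (Fin 3) P} (h : Hm d q) (h' : Hm d q') :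
    Hm d (q + q') := by
  rcases h with rfl | ⟨m, hm, hq⟩
  · rw [zero_add]; exact h'
  · rcases h' with rfl | ⟨m', hm', hq'⟩
    · rw [add_zero]; exact Or.inr ⟨m, hm, hq⟩
    · have : m' = m := by omega
      subst this
      exact Or.inr ⟨m', hm, hq.add hq'⟩

lemma Hm.neg {d : ℤ} {q : MvPolynomial (Fin 3) P} (h : Hm d q) : Hm d (-q) := by
  rcases h with rfl | ⟨m, hm, hq⟩
  · rw [neg_zero]; exact Or.inl rfl
  · exact Or.inr ⟨m, hm, hq.neg⟩

lemma Hm.sub {d : ℤ} {q q' : MvPolynomial (Fin 3) P} (h : Hm d q) (h' : Hm d q') :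
    Hm d (q - q') := by
  rw [sub_eq_add_neg]; exact h.add h'.neg

lemma Hm.mul {e : ℕ} {d : ℤ} {a q : MvPolynomial (Fin 3) P} (ha : a.IsHomogeneous e)
    (h : Hm d q) : Hm (d + e) (a * q) := by
  rcases h with rfl | ⟨m, hm, hq⟩
  · rw [mul_zero]; exact Or.inl rfl
  · exact Or.inr ⟨e + m, by push_cast; omega, ha.mul hq⟩

lemma Hm.mul' {e : ℕ} {d d' : ℤ} {a q : MvPolynomial (Fin 3) P} (ha : a.IsHomogeneous e)
    (h : Hm d q) (hd : d' = d + e) : Hm d' (a * q) := hd ▸ h.mul ha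

lemma Hm.cast {d d' : ℤ} {q : MvPolynomial (Fin 3) P} (h : Hm d q) (hd : d' = d) : Hm d' q :=
  hd ▸ h

lemma forms4_iff (n : ℕ) (p : Fin 4 → MvPolynomial (Fin 3) P) :
    Forms4 n p ↔ ∀ t, Hm ((n : ℤ) - (dgN t : ℤ)) (p t) := by
  constructor
  · intro h t
    by_cases ht : dgN t ≤ n
    · exact Or.inr ⟨n - dgN t, by omega, h.hom t ht⟩
    · exact Or.inl (h.zero t (by omega))
  · intro h
    refine ⟨fun t ht => ?_, fun t ht => ?_⟩
    · rcases h t with h0 | ⟨m, hm, hq⟩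
      · rw [h0]; exact isHomogeneous_zero _ _ _
      · have : m = n - dgN t := by omega
        rw [← this]; exact hq
    · rcases h t with h0 | ⟨m, hm, hq⟩
      · exact h0
      · omega

lemma forms4_add {n : ℕ} {p p' : Fin 4 → MvPolynomial (Fin 3) P} (h : Forms4 n p)
    (h' : Forms4 n p') : Forms4 n (p + p') := by
  rw [forms4_iff] at *
  intro t
  exact (h t).add (h' t)

lemma forms4_zero {n : ℕ} : Forms4 n (0 : Fin 4 → MvPolynomial (Fin 3) P) := by
  rw [forms4_iff]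
  intro t
  exact Or.inl rfl

lemma dgN_val : dgN 0 = 0 ∧ dgN 1 = 2 ∧ dgN 2 = 5 ∧ dgN 3 = 7 := ⟨rfl, rfl, rfl, rfl⟩

lemma forms4_mulS {n e : ℕ} {p : Fin 4 → MvPolynomial (Fin 3) P} (h : Forms4 n p)
    {s : MvPolynomial (Fin 3) P} (hs : s.IsHomogeneous e) : Forms4 (n + e) (mulS s p) := by
  rw [forms4_iff] at *
  intro t
  exact (h t).mul' hs (by push_cast; ring)

lemma forms4_mulN {D : Data P} (hD : D.Homog) {n : ℕ} {p : Fin 4 → MvPolynomial (Fin 3) P}
    (h : Forms4 n p) : Forms4 (n + 2) (mulN D p) := by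
  rw [forms4_iff] at *
  have h0 := h 0
  have h1 := h 1
  have h2 := h 2
  have h3 := h 3
  obtain ⟨d0, d1, d2, d3⟩ := dgN_val
  rw [d0] at h0
  rw [d1] at h1
  rw [d2] at h2
  rw [d3] at h3
  push_cast at h0 h1 h2 h3
  intro t
  fin_cases t
  · change Hm (((n + 2 : ℕ) : ℤ) - ((0 : ℕ) : ℤ)) (-(D.c * p 1))
    exact (h1.mul' hD.c (by push_cast; ring)).neg
  · change Hm (((n + 2 : ℕ) : ℤ) - ((2 : ℕ) : ℤ)) (p 0 - D.a * p 1)
    exact (h0.cast (by push_cast; ring)).sub (h1.mul' hD.a (by push_cast; ring))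
  · change Hm (((n + 2 : ℕ) : ℤ) - ((5 : ℕ) : ℤ)) (-(D.c * p 3))
    exact (h3.mul' hD.c (by push_cast; ring)).neg
  · change Hm (((n + 2 : ℕ) : ℤ) - ((7 : ℕ) : ℤ)) (p 2 - D.a * p 3)
    exact (h2.cast (by push_cast; ring)).sub (h3.mul' hD.a (by push_cast; ring))

lemma forms4_mulW {D : Data P} (hD : D.Homog) {n : ℕ} {p : Fin 4 → MvPolynomial (Fin 3) P}
    (h : Forms4 n p) : Forms4 (n + 5) (mulW D p) := by
  rw [forms4_iff] at *
  have h0 := h 0
  have h1 := h 1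
  have h2 := h 2
  have h3 := h 3
  obtain ⟨d0, d1, d2, d3⟩ := dgN_val
  rw [d0] at h0
  rw [d1] at h1
  rw [d2] at h2
  rw [d3] at h3
  push_cast at h0 h1 h2 h3
  intro t
  fin_cases t
  · change Hm (((n + 5 : ℕ) : ℤ) - ((0 : ℕ) : ℤ)) (-(D.e0 * p 2) + D.c * (D.e1 * p 3))
    exact (h2.mul' hD.e0 (by push_cast; ring)).neg.add
      ((h3.mul hD.e1).mul' hD.c (by push_cast; ring))
  · change Hm (((n + 5 : ℕ) : ℤ) - ((2 : ℕ) : ℤ))
      (-(D.e1 * p 2) - D.e0 * p 3 + D.a * (D.e1 * p 3))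
    exact ((h2.mul' hD.e1 (by push_cast; ring)).neg.sub (h3.mul' hD.e0 (by push_cast; ring))).add
      ((h3.mul hD.e1).mul' hD.a (by push_cast; ring))
  · change Hm (((n + 5 : ℕ) : ℤ) - ((5 : ℕ) : ℤ)) (p 0 - D.b0 * p 2 + D.c * (D.b1 * p 3))
    exact ((h0.cast (by push_cast; ring)).sub (h2.mul' hD.b0 (by push_cast; ring))).add
      ((h3.mul hD.b1).mul' hD.c (by push_cast; ring))
  · change Hm (((n + 5 : ℕ) : ℤ) - ((7 : ℕ) : ℤ))
      (p 1 - D.b1 * p 2 - D.b0 * p 3 + D.a * (D.b1 * p 3))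
    exact (((h1.cast (by push_cast; ring)).sub (h2.mul' hD.b1 (by push_cast; ring))).sub
      (h3.mul' hD.b0 (by push_cast; ring))).add
      ((h3.mul hD.b1).mul' hD.a (by push_cast; ring))

lemma step {D : Data P} (hD : D.Homog) {n : ℕ} {p : Fin 4 → MvPolynomial (Fin 3) P}
    (h : Forms4 n p) (i : Fin 5) : ∃ p', Forms4 (n + wt i) p' ∧
      lin D p * Ideal.Quotient.mk (ID D) (X i) = lin D p' := by
  have hx : ∀ r : Fin 3, Forms4 (n + 1) (mulS (X r) p) ∧ lin D p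
      * Ideal.Quotient.mk (ID D) (X (Fin.castLE (by norm_num) r)) = lin D (mulS (X r) p) := by
    intro r
    refine ⟨forms4_mulS h (isHomogeneous_X _ _), ?_⟩
    rw [lin_mulS]
    congr 2
    simp [emb]
  fin_cases i
  · exact ⟨_, hx 0⟩
  · exact ⟨_, hx 1⟩
  · exact ⟨_, hx 2⟩
  · exact ⟨mulN D p, forms4_mulN hD h, (lin_mulN D p).symm⟩
  · exact ⟨mulW D p, forms4_mulW hD h, (lin_mulW D p).symm⟩

lemma stepPow {D : Data P} (hD : D.Homog) {n : ℕ} {p : Fin 4 → MvPolynomial (Fin 3) P}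
    (h : Forms4 n p) (i : Fin 5) (k : ℕ) : ∃ p', Forms4 (n + k * wt i) p' ∧
      lin D p * Ideal.Quotient.mk (ID D) (X i) ^ k = lin D p' := by
  induction k with
  | zero => exact ⟨p, by simpa using h, by simp⟩
  | succ k ih =>
    obtain ⟨p', hp', e⟩ := ih
    obtain ⟨p'', hp'', e'⟩ := step hD hp' i
    refine ⟨p'', ?_, ?_⟩
    · have : n + (k + 1) * wt i = n + k * wt i + wt i := by ring
      rw [this]; exact hp''
    · rw [pow_succ, ← mul_assoc, e, e']

lemma mono_lin {D : Data P} (hD : D.Homog) (s : Fin 5 →₀ ℕ) (c : P) :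
    ∃ p, Forms4 (Finsupp.weight wt s) p ∧
      Ideal.Quotient.mk (ID D) (monomial s c) = lin D p := by
  have h0 : Forms4 0 (![C c, 0, 0, 0] : Fin 4 → MvPolynomial (Fin 3) P) := by
    rw [forms4_iff]
    intro t
    fin_cases t
    · exact Or.inr ⟨0, by simp [dgN], isHomogeneous_C _ _⟩
    · exact Or.inl rfl
    · exact Or.inl rfl
    · exact Or.inl rfl
  have e0 : lin D ![C c, 0, 0, 0] = Ideal.Quotient.mk (ID D) (C c) := by
    rw [lin_eq]
    congr 1
    simp [emb]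
  obtain ⟨p0, f0, g0⟩ := stepPow hD h0 0 (s 0)
  obtain ⟨p1, f1, g1⟩ := stepPow hD f0 1 (s 1)
  obtain ⟨p2, f2, g2⟩ := stepPow hD f1 2 (s 2)
  obtain ⟨p3, f3, g3⟩ := stepPow hD f2 3 (s 3)
  obtain ⟨p4, f4, g4⟩ := stepPow hD f3 4 (s 4)
  refine ⟨p4, ?_, ?_⟩
  · have : Finsupp.weight wt s = 0 + s 0 * wt 0 + s 1 * wt 1 + s 2 * wt 2 + s 3 * wt 3
        + s 4 * wt 4 := by
      rw [Finsupp.weight_apply, Finsupp.sum_fintype _ _ (by simp), Fin.sum_univ_five]
      simp only [smul_eq_mul]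
      ring
    rw [this]; exact f4
  · rw [← g4, ← g3, ← g2, ← g1, ← g0, e0, monomial_eq, Finsupp.prod_fintype _ _ (by simp),
      Fin.prod_univ_five]
    simp only [map_mul, map_pow]
    ring

lemma exists_forms {D : Data P} (hD : D.Homog) {n : ℕ} {g : MvPolynomial (Fin 5) P}
    (hg : IsWeightedHomogeneous wt g n) :
    ∃ p, Forms4 n p ∧ Ideal.Quotient.mk (ID D) g = lin D p := by
  classical
  rw [g.as_sum, map_sum]
  have key : ∀ s ∈ g.support, ∃ p, Forms4 n p ∧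
      Ideal.Quotient.mk (ID D) (monomial s (coeff s g)) = lin D p := by
    intro s hs
    obtain ⟨p, hp, e⟩ := mono_lin hD s (coeff s g)
    rw [hg (mem_support_iff.mp hs)] at hp
    exact ⟨p, hp, e⟩
  have lin0 : lin D 0 = 0 := by
    unfold lin
    simp
  have main : ∀ T : Finset (Fin 5 →₀ ℕ), T ⊆ g.support → ∃ p, Forms4 n p ∧
      ∑ s ∈ T, Ideal.Quotient.mk (ID D) (monomial s (coeff s g)) = lin D p := by
    intro T
    induction T using Finset.induction_on with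
    | empty => intro _; exact ⟨0, forms4_zero, by rw [lin0, Finset.sum_empty]⟩
    | insert a T haT ih =>
      intro hT
      obtain ⟨p, hp, e⟩ := ih ((Finset.subset_insert a T).trans hT)
      obtain ⟨p', hp', e'⟩ := key a (hT (Finset.mem_insert_self a T))
      exact ⟨p' + p, forms4_add hp' hp, by rw [Finset.sum_insert haT, e, e', lin_add]⟩
  exact main g.support subset_rfl

/-- `1, N, w, Nw`. -/
noncomputable def EE : Fin 4 → MvPolynomial (Fin 5) P := ![1, X 3, X 4, X 3 * X 4]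

lemma EE_hom (t : Fin 4) : IsWeightedHomogeneous wt (EE t : MvPolynomial (Fin 5) P) (dgN t) := by
  fin_cases t
  · exact isWeightedHomogeneous_one _ _
  · exact X_hom 3
  · exact X_hom 4
  · exact (X_hom 3).mul (X_hom 4)

lemma mk_EE (D : Data P) (t : Fin 4) : Ideal.Quotient.mk (ID D) (EE t) = eg D t := by
  fin_cases t
  · exact map_one _
  · rfl
  · rfl
  · rfl

lemma lin_mem {D : Data P} {n : ℕ} {p : Fin 4 → MvPolynomial (Fin 3) P}
    (h : Forms4 n p) : lin D p ∈ grD D n := by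
  unfold lin
  refine Submodule.sum_mem _ fun t _ => ?_
  by_cases ht : dgN t ≤ n
  · have h1 := (emb_hom (h.hom t ht)).mul (EE_hom (P := P) t)
    rw [Nat.sub_add_cancel ht] at h1
    refine ⟨emb (p t) * EE t, h1, ?_⟩
    change Ideal.Quotient.mk (ID D) (emb (p t) * EE t) = _
    rw [map_mul, mk_EE]
  · rw [h.zero t (by omega), map_zero, map_zero, zero_mul]
    exact Submodule.zero_mem _

end Main

theorem gh : T_GH := by
  intro P _ D hD n f
  constructor
  · rintro ⟨g, hg, rfl⟩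
    obtain ⟨p, hp, e⟩ := exists_forms hD.out (D := D) (n := n) (g := g) hg
    exact ⟨p, hp, e⟩
  · rintro ⟨p, hp, rfl⟩
    exact lin_mem hp

end Pool.Agent.H50.CM
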