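import Mathlib
import Pool.Agent.H1.CM.Targets3

/-!
# Module PSYM (MP_bceb84_ag): the symmetry of the model
-/

open CategoryTheory AlgebraicGeometry Limits MvPolynomial Pool.Agent.H1.CM
open HomogeneousIdeal HomogeneousLocalization

namespace Pool.Agent.H50.CM

/-- The base ring. -/
abbrev PZ : Type := Polynomial ℤ

/-- The datum. -/
noncomputable abbrev DZ : Data PZ := std (Polynomial.X : Polynomial ℤ)

/-- The involution of the base. -/
noncomputable def th : PZ →+* PZ := evt (2 - Polynomial.X)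

lemma th_X : th Polynomial.X = 2 - Polynomial.X := by
  simp [th, evt]

lemma th_th : th.comp th = RingHom.id PZ := by
  apply Polynomial.ringHom_ext
  · intro a
    simp
  · have h2 : th 2 = 2 := map_ofNat th 2
    simp [th_X, h2]

/-- The values of the variables. -/
noncomputable def sv : Fin 5 → MvPolynomial (Fin 5) PZ :=
  ![X 0, X 1, X 2, -X 3 - X 0 * X 1, X 4 + C (1 - Polynomial.X) * X 0 ^ 5]

/-- The symmetry on polynomials. -/
noncomputable def P0 : MvPolynomial (Fin 5) PZ →+* MvPolynomial (Fin 5) PZ :=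
  MvPolynomial.eval₂Hom (C.comp th) sv

lemma P0_C (a : PZ) : P0 (C a) = C (th a) := by simp [P0]
lemma P0_0 : P0 (X 0) = X 0 := by simp [P0, sv]
lemma P0_1 : P0 (X 1) = X 1 := by simp [P0, sv]
lemma P0_2 : P0 (X 2) = X 2 := by simp [P0, sv]
lemma P0_3 : P0 (X 3) = -X 3 - X 0 * X 1 := by simp [P0, sv]
lemma P0_4 : P0 (X 4) = X 4 + C (1 - Polynomial.X) * X 0 ^ 5 := by simp [P0, sv]

lemma emb_0 : emb (X 0 : MvPolynomial (Fin 3) PZ) = X 0 := by simp [emb]
lemma emb_1 : emb (X 1 : MvPolynomial (Fin 3) PZ) = X 1 := by simp [emb]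
lemma emb_2 : emb (X 2 : MvPolynomial (Fin 3) PZ) = X 2 := by simp [emb]
lemma emb_C (a : PZ) : emb (C a : MvPolynomial (Fin 3) PZ) = C a := by simp [emb]

lemma P0_F1 : P0 (F1 DZ) = F1 DZ := by
  simp only [F1, std, cStd, map_add, map_mul, map_pow, emb_0, emb_1, emb_2, P0_0, P0_1, P0_2,
    P0_3]
  ring

lemma P0_F2 : P0 (F2 DZ) = F2 DZ := by
  simp only [F2, std, cStd, eStd, map_add, map_mul, map_pow, map_sub, map_zero, map_one,
    emb_0, emb_1, emb_2, emb_C, P0_0, P0_1, P0_2, P0_3, P0_4, P0_C, th_X, map_ofNat]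
  ring

lemma P0_P0 : P0.comp P0 = RingHom.id _ := by
  apply MvPolynomial.ringHom_ext
  · intro a
    rw [RingHom.comp_apply, P0_C, P0_C]
    change C ((th.comp th) a) = C a
    rw [th_th]
    rfl
  · intro i
    fin_cases i
    · change P0 (P0 (X 0)) = X 0
      rw [P0_0, P0_0]
    · change P0 (P0 (X 1)) = X 1
      rw [P0_1, P0_1]
    · change P0 (P0 (X 2)) = X 2
      rw [P0_2, P0_2]
    · change P0 (P0 (X 3)) = X 3
      simp only [map_mul, map_sub, map_neg, P0_0, P0_1, P0_3]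
      ring
    · change P0 (P0 (X 4)) = X 4
      simp only [map_add, map_mul, map_pow, map_sub, P0_0, P0_4, P0_C, map_one, th_X, map_ofNat]
      ring

lemma sv_hom (i : Fin 5) : IsWeightedHomogeneous wt (sv i) (wt i) := by
  have h0 : IsWeightedHomogeneous wt (X 0 : MvPolynomial (Fin 5) PZ) 1 := X_hom 0
  have h1 : IsWeightedHomogeneous wt (X 1 : MvPolynomial (Fin 5) PZ) 1 := X_hom 1
  have h3 : IsWeightedHomogeneous wt (X 3 : MvPolynomial (Fin 5) PZ) 2 := X_hom 3
  have h4 : IsWeightedHomogeneous wt (X 4 : MvPolynomial (Fin 5) PZ) 5 := X_hom 4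
  fin_cases i
  · exact X_hom 0
  · exact X_hom 1
  · exact X_hom 2
  · change IsWeightedHomogeneous wt (-X 3 - X 0 * X 1 : MvPolynomial (Fin 5) PZ) 2
    have := Submodule.sub_mem (weightedHomogeneousSubmodule PZ wt 2)
      (Submodule.neg_mem (weightedHomogeneousSubmodule PZ wt 2) h3) (h0.mul h1)
    exact this
  · change IsWeightedHomogeneous wt
      (X 4 + C (1 - Polynomial.X) * X 0 ^ 5 : MvPolynomial (Fin 5) PZ) 5
    have h5 : IsWeightedHomogeneous wt (C (1 - Polynomial.X) * X 0 ^ 5 :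
        MvPolynomial (Fin 5) PZ) (0 + 5 • 1) :=
      (isWeightedHomogeneous_C _ _).mul (h0.pow 5)
    exact h4.add h5

lemma P0_hom {g : MvPolynomial (Fin 5) PZ} {n : ℕ} (hg : IsWeightedHomogeneous wt g n) :
    IsWeightedHomogeneous wt (P0 g) n := by
  rw [g.as_sum, map_sum]
  refine Submodule.sum_mem (weightedHomogeneousSubmodule PZ wt n) ?_
  intro s hs
  have hw := hg (mem_support_iff.mp hs)
  rw [mem_weightedHomogeneousSubmodule]
  have e : P0 (monomial s (coeff s g)) = C (th (coeff s g)) * ∏ i : Fin 5, sv i ^ s i := by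
    rw [monomial_eq, map_mul, P0_C, Finsupp.prod_fintype _ _ (by simp), map_prod]
    congr 1
    refine Finset.prod_congr rfl fun i _ => ?_
    rw [map_pow]
    simp [P0]
  rw [e]
  have h1 : IsWeightedHomogeneous wt (∏ i : Fin 5, sv i ^ s i) (∑ i : Fin 5, s i • wt i) :=
    IsWeightedHomogeneous.prod _ _ _ fun i _ => (sv_hom i).pow (s i)
  have h2 := (isWeightedHomogeneous_C wt (th (coeff s g))).mul h1
  rw [zero_add] at h2
  have h3 : Finsupp.weight wt s = ∑ i : Fin 5, s i • wt i := by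
    rw [Finsupp.weight_apply, Finsupp.sum_fintype _ _ (by simp)]
  rw [← h3, hw] at h2
  exact h2

lemma P0_ID {g : MvPolynomial (Fin 5) PZ} (hg : g ∈ ID DZ) : P0 g ∈ ID DZ := by
  have h : ID DZ ≤ (ID DZ).comap P0 := by
    conv_lhs => unfold ID
    rw [Ideal.span_le]
    rintro x (rfl | rfl)
    · change P0 (F1 DZ) ∈ ID DZ
      rw [P0_F1]
      exact Ideal.subset_span (by simp)
    · change P0 (F2 DZ) ∈ ID DZ
      rw [P0_F2]
      exact Ideal.subset_span (by simp)
  exact h hg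

/-- The symmetry of the homogeneous coordinate ring. -/
noncomputable def PS : SD DZ →+* SD DZ :=
  Ideal.quotientMap (ID DZ) P0 (fun _ hg => P0_ID hg)

lemma PS_mk (g : MvPolynomial (Fin 5) PZ) :
    PS (Ideal.Quotient.mk (ID DZ) g) = Ideal.Quotient.mk (ID DZ) (P0 g) := by
  unfold PS
  rw [Ideal.quotientMap_mk]

/-- The symmetry as a graded ring homomorphism. -/
noncomputable def PG : grD DZ →+*ᵍ grD DZ where
  toRingHom := PS
  map_mem := by
    rintro i x ⟨g, hg, rfl⟩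
    exact ⟨P0 g, P0_hom hg, (PS_mk g).symm⟩

lemma PG_PG : PG.comp PG = GradedRingHom.id (grD DZ) := by
  ext x
  obtain ⟨g, rfl⟩ := Ideal.Quotient.mk_surjective x
  change PS (PS (Ideal.Quotient.mk (ID DZ) g)) = Ideal.Quotient.mk (ID DZ) g
  rw [PS_mk, PS_mk]
  change Ideal.Quotient.mk (ID DZ) ((P0.comp P0) g) = _
  rw [P0_P0]
  rfl

lemma PG_irr [Fact DZ.Homog] : (HomogeneousIdeal.irrelevant (grD DZ)) ≤
    (HomogeneousIdeal.irrelevant (grD DZ)).map PG := by
  intro x hx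
  have h1 : PG (PG x) = x := congrArg (fun φ : grD DZ →+*ᵍ grD DZ => φ x) PG_PG
  have h2 : PG x ∈ (HomogeneousIdeal.irrelevant (grD DZ)) := by
    rw [HomogeneousIdeal.mem_irrelevant_iff] at hx ⊢
    rw [GradedRing.proj_apply] at hx ⊢
    rw [← PG.map_directSumDecompose, hx, map_zero]
  rw [← h1]
  exact Ideal.mem_map_of_mem _ h2

lemma PG_irr2 [Fact DZ.Homog] : (HomogeneousIdeal.irrelevant (grD DZ)) ≤
    (HomogeneousIdeal.irrelevant (grD DZ)).map (PG.comp PG) := by
  rw [PG_PG]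
  intro x hx
  exact Ideal.mem_map_of_mem (GradedRingHom.id (grD DZ)) hx

lemma map_map_eq [Fact DZ.Homog] : Proj.map PG PG_irr ≫ Proj.map PG PG_irr = 𝟙 _ := by
  rw [← Proj.map_comp PG PG PG_irr PG_irr]
  have h : ∀ (φ : grD DZ →+*ᵍ grD DZ) (h : (HomogeneousIdeal.irrelevant (grD DZ)) ≤
    (HomogeneousIdeal.irrelevant (grD DZ)).map φ), φ = GradedRingHom.id (grD DZ) →
      Proj.map φ h = 𝟙 _ := by
    rintro φ h rfl
    exact Proj.map_id
  exact h _ _ PG_PG

lemma PS_algebraMap (a : PZ) : PS (algebraMap PZ (SD DZ) a) = algebraMap PZ (SD DZ) (th a) := by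
  change PS (Ideal.Quotient.mk (ID DZ) (C a)) = Ideal.Quotient.mk (ID DZ) (C (th a))
  rw [PS_mk, P0_C]

lemma ring_eq [Fact DZ.Homog] (s : SD DZ) :
    (Away.map PG s).comp (iAw DZ s) = (iAw DZ (PG s)).comp th := by
  apply RingHom.ext
  intro a
  apply HomogeneousLocalization.val_injective
  change Localization.mk (PS (algebraMap PZ (SD DZ) a)) _
    = Localization.mk (algebraMap PZ (SD DZ) (th a)) _
  rw [PS_algebraMap]
  congr 1
  exact Subtype.ext (map_one PS)

lemma proj_str_loc [Fact DZ.Homog] {i : ℕ} (hi : 0 < i) (s : SD DZ) (hs : s ∈ grD DZ i) :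
    Proj.awayι (grD DZ) (PG s) (PG.2 hs) hi ≫ Proj.map PG PG_irr ≫ projStr DZ
    = Proj.awayι (grD DZ) (PG s) (PG.2 hs) hi ≫ projStr DZ ≫
      Spec.map (CommRingCat.ofHom th) := by
  rw [Proj.awayι_comp_map_assoc PG PG_irr hi s hs]
  unfold projStr
  rw [Category.assoc, Proj.awayι_toSpecZero_assoc, Proj.awayι_toSpecZero_assoc]
  rw [← Spec.map_comp, ← Spec.map_comp, ← Spec.map_comp, ← Spec.map_comp,
    ← CommRingCat.ofHom_comp, ← CommRingCat.ofHom_comp, ← CommRingCat.ofHom_comp,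
    ← CommRingCat.ofHom_comp]
  congr 2
  exact ring_eq _

lemma proj_str [Fact DZ.Homog] : Proj.map PG PG_irr ≫ projStr DZ
    = projStr DZ ≫ Spec.map (CommRingCat.ofHom th) := by
  refine (Proj.mapAffineOpenCover PG PG_irr).openCover.hom_ext _ _ fun s ↦ ?_
  exact proj_str_loc s.1.2 s.2.1 s.2.2

theorem psym : T_PSYM := by
  intro _
  exact ⟨⟨Proj.map PG PG_irr, Proj.map PG PG_irr, map_map_eq, map_map_eq⟩, proj_str⟩

end Pool.Agent.H50.CM
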